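import Mathlib

set_option autoImplicit false
set_option linter.unusedSectionVars false

/-! The commutative product on `k^n`, `n ≥ 5`, with `x y = s`, `y z = t`, `z x = -s - t`, all other
products of basis vectors being `0`, and the projections `Ω_a` onto `⟨x, s, t, …⟩` along
`⟨y + a x, z + a x⟩`. -/

namespace Pool.Agent.KS6_49.BO

universe u

variable {k : Type u} [Field k] {n : ℕ} (h : 5 ≤ n)

/-- index -/
def i0 : Fin n := ⟨0, by omega⟩
def i1 : Fin n := ⟨1, by omega⟩
def i2 : Fin n := ⟨2, by omega⟩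
def i3 : Fin n := ⟨3, by omega⟩
def i4 : Fin n := ⟨4, by omega⟩

/-- the product -/
def mulFun (v w : Fin n → k) : Fin n → k := fun i =>
  if i.val = 3 then (v (i0 h) * w (i1 h) + v (i1 h) * w (i0 h))
      - (v (i2 h) * w (i0 h) + v (i0 h) * w (i2 h))
  else if i.val = 4 then (v (i1 h) * w (i2 h) + v (i2 h) * w (i1 h))
      - (v (i2 h) * w (i0 h) + v (i0 h) * w (i2 h))
  else 0

/-- the product as a bilinear map -/
def mul : (Fin n → k) →ₗ[k] (Fin n → k) →ₗ[k] (Fin n → k) :=
  LinearMap.mk₂ k (mulFun h)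
    (by intro v w u; ext i; simp only [mulFun, Pi.add_apply]; split_ifs <;> ring)
    (by intro c v w; ext i; simp only [mulFun, Pi.smul_apply, smul_eq_mul]; split_ifs <;> ring)
    (by intro v w u; ext i; simp only [mulFun, Pi.add_apply]; split_ifs <;> ring)
    (by intro c v w; ext i; simp only [mulFun, Pi.smul_apply, smul_eq_mul]; split_ifs <;> ring)

lemma mul_apply (v w : Fin n → k) : mul h v w = mulFun h v w := rfl

lemma mul0 (v w : Fin n → k) : mul h v w (i0 h) = 0 := by simp [mul_apply, mulFun, i0]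
lemma mul1 (v w : Fin n → k) : mul h v w (i1 h) = 0 := by simp [mul_apply, mulFun, i1]
lemma mul2 (v w : Fin n → k) : mul h v w (i2 h) = 0 := by simp [mul_apply, mulFun, i2]
lemma mul3 (v w : Fin n → k) : mul h v w (i3 h) =
    (v (i0 h) * w (i1 h) + v (i1 h) * w (i0 h)) - (v (i2 h) * w (i0 h) + v (i0 h) * w (i2 h)) := by
  simp [mul_apply, mulFun, i3]
lemma mul4 (v w : Fin n → k) : mul h v w (i4 h) =
    (v (i1 h) * w (i2 h) + v (i2 h) * w (i1 h)) - (v (i2 h) * w (i0 h) + v (i0 h) * w (i2 h)) := by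
  simp [mul_apply, mulFun, i4]

/-- the product only depends on the first three coordinates -/
lemma mul_eq_zero_of (v w : Fin n → k) (h0 : v (i0 h) = 0) (h1 : v (i1 h) = 0)
    (h2 : v (i2 h) = 0) : mul h v w = 0 := by
  ext i
  simp [mul_apply, mulFun, h0, h1, h2]

lemma mul_comm' (v w : Fin n → k) : mul h v w = mul h w v := by
  ext i
  simp only [mul_apply, mulFun]
  split_ifs <;> ring

lemma mul_sq_sq (v : Fin n → k) : mul h (mul h v v) (mul h v v) = 0 :=
  mul_eq_zero_of h _ _ (mul0 h _ _) (mul1 h _ _) (mul2 h _ _)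

/-- the operator `Ω_a` -/
def Om (a : k) : (Fin n → k) →ₗ[k] (Fin n → k) where
  toFun v := fun i => if i.val = 0 then v i - a * (v (i1 h) + v (i2 h))
    else if i.val = 1 then 0 else if i.val = 2 then 0 else v i
  map_add' v w := by
    ext i
    simp only [Pi.add_apply]
    split_ifs <;> ring
  map_smul' c v := by
    ext i
    simp only [Pi.smul_apply, smul_eq_mul, RingHom.id_apply]
    split_ifs <;> ring

lemma Om_apply (a : k) (v : Fin n → k) (i : Fin n) : Om h a v i =
    if i.val = 0 then v i - a * (v (i1 h) + v (i2 h))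
    else if i.val = 1 then 0 else if i.val = 2 then 0 else v i := rfl

lemma Om0 (a : k) (v : Fin n → k) : Om h a v (i0 h) = v (i0 h) - a * (v (i1 h) + v (i2 h)) := by
  simp [Om_apply, i0]
lemma Om1 (a : k) (v : Fin n → k) : Om h a v (i1 h) = 0 := by simp [Om_apply, i1]
lemma Om2 (a : k) (v : Fin n → k) : Om h a v (i2 h) = 0 := by simp [Om_apply, i2]

lemma Om_sq (a : k) : Om h a ∘ₗ Om h a = Om h a := by
  apply LinearMap.ext
  intro v
  ext i
  rw [LinearMap.comp_apply, Om_apply, Om1, Om2, Om_apply]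
  split_ifs <;> simp

lemma Om_of_zero (a : k) (v : Fin n → k) (h1 : v (i1 h) = 0)
    (h2 : v (i2 h) = 0) : Om h a v = v := by
  ext i
  rw [Om_apply]
  split_ifs with e0 e1 e2
  · rw [h1, h2]; ring
  · have : i = i1 h := Fin.ext e1
    rw [this, h1]
  · have : i = i2 h := Fin.ext e2
    rw [this, h2]
  · rfl

lemma Om_mul_zero (a : k) (v : Fin n → k) : mul h (Om h a v) (Om h a v) = 0 := by
  ext i
  simp only [mul_apply, mulFun, Om1, Om2]
  split_ifs <;> simp

/-- the key computation -/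
lemma key (c α β γ α' β' γ' a a' : k) (hc : c ≠ 0)
    (e1 : α * (β - γ) = 0) (e2 : γ * (β - α) = 0)
    (e3 : α' * (β' - γ') = 0) (e4 : γ' * (β' - α') = 0)
    (e5 : (c + α + α') * ((β + β') - (γ + γ')) = 0) (e6 : (γ + γ') * ((β + β') - (c + α + α')) = 0)
    (n1 : β ≠ 0 ∨ γ ≠ 0) (n2 : β' ≠ 0 ∨ γ' ≠ 0)
    (n3 : (α * β' + β * α') - (γ * α' + α * γ') ≠ 0 ∨ (β * γ' + γ * β') - (γ * α' + α * γ') ≠ 0)
    (f1 : α + a * c = a' * (β + γ)) (f2 : α' + a * c = a' * (β' + γ')) : a = a' := by
  have t1 : (α = 0 ∧ γ = 0 ∧ β ≠ 0) ∨ (α = 0 ∧ β = 0 ∧ γ ≠ 0) ∨ (α = β ∧ α = γ ∧ α ≠ 0) := by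
    rcases mul_eq_zero.1 e1 with h | h
    · rcases mul_eq_zero.1 e2 with h' | h'
      · exact Or.inl ⟨h, h', by rcases n1 with h1 | h1 <;> [exact h1; exact absurd h' h1]⟩
      · have hb : β = 0 := by rw [h, sub_zero] at h'; exact h'
        exact Or.inr (Or.inl ⟨h, hb, by rcases n1 with h1 | h1 <;> [exact absurd hb h1; exact h1]⟩)
    · have hbg : β = γ := sub_eq_zero.1 h
      have hb : β ≠ 0 := by
        rcases n1 with h1 | h1
        · exact h1
        · rw [hbg]; exact h1
      rcases mul_eq_zero.1 e2 with h' | h'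
      · exact absurd (hbg.trans h') hb
      · have hab : α = β := (sub_eq_zero.1 h').symm
        exact Or.inr (Or.inr ⟨hab, hab.trans hbg, by rw [hab]; exact hb⟩)
  have t2 : (α' = 0 ∧ γ' = 0 ∧ β' ≠ 0) ∨ (α' = 0 ∧ β' = 0 ∧ γ' ≠ 0) ∨
      (α' = β' ∧ α' = γ' ∧ α' ≠ 0) := by
    rcases mul_eq_zero.1 e3 with h | h
    · rcases mul_eq_zero.1 e4 with h' | h'
      · exact Or.inl ⟨h, h', by rcases n2 with h1 | h1 <;> [exact h1; exact absurd h' h1]⟩
      · have hb : β' = 0 := by rw [h, sub_zero] at h'; exact h'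
        exact Or.inr (Or.inl ⟨h, hb, by rcases n2 with h1 | h1 <;> [exact absurd hb h1; exact h1]⟩)
    · have hbg : β' = γ' := sub_eq_zero.1 h
      have hb : β' ≠ 0 := by
        rcases n2 with h1 | h1
        · exact h1
        · rw [hbg]; exact h1
      rcases mul_eq_zero.1 e4 with h' | h'
      · exact absurd (hbg.trans h') hb
      · have hab : α' = β' := (sub_eq_zero.1 h').symm
        exact Or.inr (Or.inr ⟨hab, hab.trans hbg, by rw [hab]; exact hb⟩)
  have fin : ∀ b : k, b = c → a * c = a' * b → a = a' := by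
    rintro b rfl hb
    exact mul_right_cancel₀ hc hb
  rcases t1 with ⟨rfl, rfl, hβ⟩ | ⟨rfl, rfl, hγ⟩ | ⟨rfl, rfl, hα⟩ <;>
  rcases t2 with ⟨rfl, rfl, hβ'⟩ | ⟨rfl, rfl, hγ'⟩ | ⟨rfl, rfl, hα'⟩
  · exfalso; rcases n3 with h | h <;> apply h <;> ring
  · -- y, z
    have g1 : β - γ' = 0 := by
      have : c * (β - γ') = 0 := by linear_combination e5
      exact (mul_eq_zero.1 this).resolve_left hc
    have g2 : β - c = 0 := by
      have : γ' * (β - c) = 0 := by linear_combination e6
      exact (mul_eq_zero.1 this).resolve_left hγ'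
    exact fin β (sub_eq_zero.1 g2) (by linear_combination f1)
  · have g2 : β - c = 0 := by
      have g1 : c + α' = 0 := by
        have : β * (c + α') = 0 := by linear_combination e5
        exact (mul_eq_zero.1 this).resolve_left hβ
      have : α' * (β - c) = 0 := by linear_combination e6
      exact (mul_eq_zero.1 this).resolve_left hα'
    exact fin β (sub_eq_zero.1 g2) (by linear_combination f1)
  · have g1 : β' - γ = 0 := by
      have : c * (β' - γ) = 0 := by linear_combination e5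
      exact (mul_eq_zero.1 this).resolve_left hc
    have g2 : β' - c = 0 := by
      have : γ * (β' - c) = 0 := by linear_combination e6
      exact (mul_eq_zero.1 this).resolve_left hγ
    exact fin β' (sub_eq_zero.1 g2) (by linear_combination f2)
  · exfalso; rcases n3 with h | h <;> apply h <;> ring
  · have g1 : c + α' = 0 := by
      have : γ * (c + α') = 0 := by linear_combination (-1 : k) * e5
      exact (mul_eq_zero.1 this).resolve_left hγ
    have g2 : γ - c = 0 := by
      have : c * (γ + α') = 0 := by linear_combination (-1 : k) * e6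
      have := (mul_eq_zero.1 this).resolve_left hc
      linear_combination this - g1
    exact fin γ (sub_eq_zero.1 g2) (by linear_combination f1)
  · have g2 : β' - c = 0 := by
      have : α * (β' - c) = 0 := by linear_combination e6
      exact (mul_eq_zero.1 this).resolve_left hα
    exact fin β' (sub_eq_zero.1 g2) (by linear_combination f2)
  · have g1 : c + α = 0 := by
      have : γ' * (c + α) = 0 := by linear_combination (-1 : k) * e5
      exact (mul_eq_zero.1 this).resolve_left hγ'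
    have g2 : γ' - c = 0 := by
      have : c * (γ' + α) = 0 := by linear_combination (-1 : k) * e6
      have := (mul_eq_zero.1 this).resolve_left hc
      linear_combination this - g1
    exact fin γ' (sub_eq_zero.1 g2) (by linear_combination f2)
  · exfalso; rcases n3 with h | h <;> apply h <;> ring

lemma ne01 : (i0 h) ≠ (i1 h) := by intro e; have := congrArg Fin.val e; simp [i0, i1] at this
lemma ne02 : (i0 h) ≠ (i2 h) := by intro e; have := congrArg Fin.val e; simp [i0, i2] at this
lemma ne12 : (i1 h) ≠ (i2 h) := by intro e; have := congrArg Fin.val e; simp [i1, i2] at this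

/-- basis vectors `x, y, z` -/
def ex : Fin n → k := Pi.single (i0 h) 1
def ey : Fin n → k := Pi.single (i1 h) 1
def ez : Fin n → k := Pi.single (i2 h) 1

lemma ex0 : (ex h : Fin n → k) (i0 h) = 1 := by simp [ex]
lemma ex1 : (ex h : Fin n → k) (i1 h) = 0 := by simp [ex, (ne01 h).symm]
lemma ex2 : (ex h : Fin n → k) (i2 h) = 0 := by simp [ex, (ne02 h).symm]
lemma ey0 : (ey h : Fin n → k) (i0 h) = 0 := by simp [ey, (ne01 h)]
lemma ey1 : (ey h : Fin n → k) (i1 h) = 1 := by simp [ey]
lemma ey2 : (ey h : Fin n → k) (i2 h) = 0 := by simp [ey, (ne12 h).symm]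
lemma ez0 : (ez h : Fin n → k) (i0 h) = 0 := by simp [ez, (ne02 h)]
lemma ez1 : (ez h : Fin n → k) (i1 h) = 0 := by simp [ez, (ne12 h)]
lemma ez2 : (ez h : Fin n → k) (i2 h) = 1 := by simp [ez]

lemma Om_ex (a : k) : Om h a (ex h) = ex h := by
  ext i
  rw [Om_apply, ex1, ex2]
  split_ifs with e0 e1 e2
  · ring
  · have : i = i1 h := Fin.ext e1
    rw [this, ex1]
  · have : i = i2 h := Fin.ext e2
    rw [this, ex2]
  · rfl

lemma Om_ey (a : k) : Om h a (ey h) = (-a) • ex h := by
  ext i
  rw [Om_apply, ey1, ey2, Pi.smul_apply, smul_eq_mul]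
  split_ifs with e0 e1 e2
  · have : i = i0 h := Fin.ext e0
    rw [this, ey0, ex0]; ring
  · have : i = i1 h := Fin.ext e1
    rw [this, ex1]; ring
  · have : i = i2 h := Fin.ext e2
    rw [this, ex2]; ring
  · have h0 : i ≠ i0 h := fun e => e0 (congrArg Fin.val e)
    have h1 : i ≠ i1 h := fun e => e1 (congrArg Fin.val e)
    simp [ex, ey, h0, h1]

lemma Om_ez (a : k) : Om h a (ez h) = (-a) • ex h := by
  ext i
  rw [Om_apply, ez1, ez2, Pi.smul_apply, smul_eq_mul]
  split_ifs with e0 e1 e2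
  · have : i = i0 h := Fin.ext e0
    rw [this, ez0, ex0]; ring
  · have : i = i1 h := Fin.ext e1
    rw [this, ex1]; ring
  · have : i = i2 h := Fin.ext e2
    rw [this, ex2]; ring
  · have h0 : i ≠ i0 h := fun e => e0 (congrArg Fin.val e)
    have h1 : i ≠ i2 h := fun e => e2 (congrArg Fin.val e)
    simp [ex, ez, h0, h1]

lemma sq_zero_of (v : Fin n → k)
    (h1 : v (i0 h) * v (i1 h) = v (i2 h) * v (i0 h))
    (h2 : v (i1 h) * v (i2 h) = v (i2 h) * v (i0 h)) : mul h v v = 0 := by
  ext i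
  simp only [mul_apply, mulFun, Pi.zero_apply]
  split_ifs
  · linear_combination 2 * h1
  · linear_combination 2 * h2
  · rfl

lemma sq_zero_imp (h2 : (2 : k) ≠ 0) (v : Fin n → k) (hv : mul h v v = 0) :
    v (i0 h) * (v (i1 h) - v (i2 h)) = 0 ∧ v (i2 h) * (v (i1 h) - v (i0 h)) = 0 := by
  have e3 := congrFun hv (i3 h)
  have e4 := congrFun hv (i4 h)
  rw [mul3] at e3
  rw [mul4] at e4
  constructor
  · have : (2 : k) * (v (i0 h) * (v (i1 h) - v (i2 h))) = 0 := by
      have e3' : v (i0 h) * v (i1 h) + v (i1 h) * v (i0 h)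
        - (v (i2 h) * v (i0 h) + v (i0 h) * v (i2 h)) = 0 := e3
      linear_combination e3'
    exact (mul_eq_zero.1 this).resolve_left h2
  · have : (2 : k) * (v (i2 h) * (v (i1 h) - v (i0 h))) = 0 := by
      have e4' : v (i1 h) * v (i2 h) + v (i2 h) * v (i1 h)
        - (v (i2 h) * v (i0 h) + v (i0 h) * v (i2 h)) = 0 := e4
      linear_combination e4'
    exact (mul_eq_zero.1 this).resolve_left h2

/-- `Ω_a` and `Ω_{a'}` are conjugate modulo products only for `a = a'`. -/
lemma inequiv (h2 : (2 : k) ≠ 0) (a a' : k) (f : (Fin n → k) ≃ₗ[k] (Fin n → k))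
    (hf : ∀ v w, f (mul h v w) = mul h (f v) (f w)) (v0 : Fin n → k)
    (hO : ∀ v, Om h a' v = f (Om h a (f.symm v)) - (2 : k) • mul h v v0) : a = a' := by
  have hO' : ∀ v, Om h a' (f v) = f (Om h a v) - (2 : k) • mul h (f v) v0 := by
    intro v
    have := hO (f v)
    rwa [f.symm_apply_apply] at this
  have hne : ∀ v w : Fin n → k, mul h v w ≠ 0 → mul h (f v) (f w) ≠ 0 := by
    intro v w hvw h3
    rw [← hf] at h3
    exact hvw (f.map_eq_zero_iff.1 h3)
  have nxy : mul h (ex h : Fin n → k) (ey h) ≠ 0 := by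
    intro e
    have := congrFun e (i3 h)
    rw [mul3, ex0, ex1, ex2, ey0, ey1, ey2] at this
    simp at this
  have nxz : mul h (ex h : Fin n → k) (ez h) ≠ 0 := by
    intro e
    have := congrFun e (i3 h)
    rw [mul3, ex0, ex1, ex2, ez0, ez1, ez2] at this
    simp at this
  have nyz : mul h (ey h : Fin n → k) (ez h) ≠ 0 := by
    intro e
    have := congrFun e (i4 h)
    rw [mul4, ey0, ey1, ey2, ez0, ez1, ez2] at this
    simp at this
  -- images of x
  have x1 : f (ex h) (i1 h) = 0 := by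
    have := congrFun (hO' (ex h)) (i1 h)
    rw [Om1, Om_ex, Pi.sub_apply, Pi.smul_apply, mul1, smul_zero, sub_zero] at this
    exact this.symm
  have x2 : f (ex h) (i2 h) = 0 := by
    have := congrFun (hO' (ex h)) (i2 h)
    rw [Om2, Om_ex, Pi.sub_apply, Pi.smul_apply, mul2, smul_zero, sub_zero] at this
    exact this.symm
  have fy : f (ey h) (i0 h) + a * f (ex h) (i0 h) =
      a' * (f (ey h) (i1 h) + f (ey h) (i2 h)) := by
    have := congrFun (hO' (ey h)) (i0 h)
    rw [Om0, Om_ey, map_smul, Pi.sub_apply, Pi.smul_apply, Pi.smul_apply, mul0, smul_zero,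
      sub_zero, smul_eq_mul] at this
    linear_combination this
  have fz : f (ez h) (i0 h) + a * f (ex h) (i0 h) =
      a' * (f (ez h) (i1 h) + f (ez h) (i2 h)) := by
    have := congrFun (hO' (ez h)) (i0 h)
    rw [Om0, Om_ez, map_smul, Pi.sub_apply, Pi.smul_apply, Pi.smul_apply, mul0, smul_zero,
      sub_zero, smul_eq_mul] at this
    linear_combination this
  have sy : mul h (f (ey h)) (f (ey h)) = 0 := by
    rw [← hf, sq_zero_of, map_zero]
    · rw [ey0, ey1, ey2]; ring
    · rw [ey0, ey1, ey2]; ring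
  have sz : mul h (f (ez h)) (f (ez h)) = 0 := by
    rw [← hf, sq_zero_of, map_zero]
    · rw [ez0, ez1, ez2]; ring
    · rw [ez0, ez1, ez2]; ring
  have sw : mul h (f (ex h + ey h + ez h)) (f (ex h + ey h + ez h)) = 0 := by
    rw [← hf, sq_zero_of, map_zero]
    · simp only [Pi.add_apply, ex0, ex1, ex2, ey0, ey1, ey2, ez0, ez1, ez2]; ring
    · simp only [Pi.add_apply, ex0, ex1, ex2, ey0, ey1, ey2, ez0, ez1, ez2]; ring
  obtain ⟨e1, e2⟩ := sq_zero_imp h h2 _ sy
  obtain ⟨e3, e4⟩ := sq_zero_imp h h2 _ sz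
  obtain ⟨e5, e6⟩ := sq_zero_imp h h2 _ sw
  simp only [map_add, Pi.add_apply, x1, x2, zero_add] at e5 e6
  have hc : f (ex h) (i0 h) ≠ 0 := by
    intro hc
    exact hne _ _ nxy (mul_eq_zero_of h _ _ hc x1 x2)
  refine key (f (ex h) (i0 h)) (f (ey h) (i0 h)) (f (ey h) (i1 h)) (f (ey h) (i2 h))
    (f (ez h) (i0 h)) (f (ez h) (i1 h)) (f (ez h) (i2 h)) a a' hc e1 e2 e3 e4 e5 e6 ?_ ?_ ?_ fy fz
  · by_contra hcon
    push Not at hcon
    obtain ⟨p1, p2⟩ := hcon
    apply hne _ _ nxy
    ext i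
    simp only [mul_apply, mulFun, x1, x2, p1, p2, Pi.zero_apply]
    split_ifs <;> ring
  · by_contra hcon
    push Not at hcon
    obtain ⟨p1, p2⟩ := hcon
    apply hne _ _ nxz
    ext i
    simp only [mul_apply, mulFun, x1, x2, p1, p2, Pi.zero_apply]
    split_ifs <;> ring
  · by_contra hcon
    push Not at hcon
    obtain ⟨p1, p2⟩ := hcon
    apply hne _ _ nyz
    ext i
    simp only [mul_apply, mulFun, Pi.zero_apply]
    split_ifs
    · exact p1
    · exact p2
    · rfl

end Pool.Agent.KS6_49.BO
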